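import Pool.Agent.Helper64.LN.GoalsA

/-!
# Packet LN-F2: the ultralimit of maps which are eventually homomorphisms up to bounded exceptions
-/

set_option autoImplicit false

namespace Pool.Agent.Helper86.LN

open Filter Pool.Agent.Helper64.LN

/-- The sets of pairs `(j, i)` containing, for every large `j`, all `i < j` with a bounded number
of exceptions. -/
def FF : Filter (ℕ × ℕ) where
  sets := {A | ∃ C : ℕ, ∀ᶠ j : ℕ in atTop, ∃ F : Finset ℕ, F.card ≤ C ∧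
    ∀ i < j, i ∉ F → (j, i) ∈ A}
  univ_sets := ⟨0, Eventually.of_forall fun _ => ⟨∅, by simp, fun _ _ _ => Set.mem_univ _⟩⟩
  sets_of_superset := by
    rintro A B ⟨C, hC⟩ hAB
    refine ⟨C, hC.mono ?_⟩
    rintro j ⟨F, h1, h2⟩
    exact ⟨F, h1, fun i hi hF => hAB (h2 i hi hF)⟩
  inter_sets := by
    rintro A B ⟨C, hC⟩ ⟨D, hD⟩
    refine ⟨C + D, (hC.and hD).mono ?_⟩
    rintro j ⟨⟨F, h1, h2⟩, E, h3, h4⟩
    refine ⟨F ∪ E, (Finset.card_union_le _ _).trans (by omega), fun i hi hF => ?_⟩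
    rw [Finset.mem_union, not_or] at hF
    exact ⟨h2 i hi hF.1, h4 i hi hF.2⟩

lemma mem_FF {A : Set (ℕ × ℕ)} {C : ℕ}
    (h : ∀ᶠ j : ℕ in atTop, ∃ F : Finset ℕ, F.card ≤ C ∧ ∀ i < j, i ∉ F → (j, i) ∈ A) :
    A ∈ FF :=
  ⟨C, h⟩

instance FF_neBot : NeBot FF := by
  rw [neBot_iff, ne_eq, ← empty_mem_iff_bot]
  rintro ⟨C, hC⟩
  obtain ⟨j, ⟨F, h1, h2⟩, hj⟩ := (hC.and (eventually_ge_atTop (C + 1))).exists
  have h3 : Finset.range (C + 1) ⊆ F := by
    intro i hi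
    rw [Finset.mem_range] at hi
    by_contra h
    exact h2 i (by omega) h
  have h4 := Finset.card_le_card h3
  rw [Finset.card_range] at h4
  omega

theorem goalF2.{v} : GoalF2.{v} := by
  intro G _ M _ _ θ K hθ
  have hU : ((Ultrafilter.of FF : Ultrafilter (ℕ × ℕ)) : Filter (ℕ × ℕ)) ≤ FF :=
    Ultrafilter.of_le FF
  have hlim : ∀ g : G, ∃ m : M, ∀ᶠ p in ((Ultrafilter.of FF : Ultrafilter (ℕ × ℕ)) : Filter (ℕ × ℕ)),
      θ p.1 p.2 g = m := by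
    intro g
    obtain ⟨m, hm⟩ := Ultrafilter.eq_pure_of_finite
      ((Ultrafilter.of FF).map fun p : ℕ × ℕ => θ p.1 p.2 g)
    refine ⟨m, ?_⟩
    have h1 : ({m} : Set M) ∈ (Ultrafilter.of FF).map fun p : ℕ × ℕ => θ p.1 p.2 g := by
      rw [hm]
      exact Set.mem_singleton m
    rw [Ultrafilter.mem_map] at h1
    exact h1
  choose Θ hΘ using hlim
  have huniq : ∀ g m, (∀ᶠ p in ((Ultrafilter.of FF : Ultrafilter (ℕ × ℕ)) : Filter (ℕ × ℕ)),
      θ p.1 p.2 g = m) → Θ g = m := by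
    intro g m hm
    obtain ⟨p, h1, h2⟩ := ((hΘ g).and hm).exists
    exact h1.symm.trans h2
  refine ⟨MonoidHom.mk' Θ ?_, ?_⟩
  · intro g h
    apply huniq
    have h1 : ∀ᶠ p in ((Ultrafilter.of FF : Ultrafilter (ℕ × ℕ)) : Filter (ℕ × ℕ)),
        θ p.1 p.2 (g * h) = θ p.1 p.2 g * θ p.1 p.2 h :=
      hU (mem_FF (C := K) (hθ g h))
    filter_upwards [h1, hΘ g, hΘ h] with p h1 h2 h3
    rw [h1, h2, h3]
  · intro g m hm
    exact huniq g m (hU (mem_FF (C := K) hm))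

end Pool.Agent.Helper86.LN
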