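import Pool.Agent.Helper64.LN.GoalsA

set_option autoImplicit false

/-! Packet LN-H4: the Behrstock inequality. -/

namespace Pool.Agent.Helper86.LN

open Pool.Agent.Helper64.LN

section
variable {H : Type} [Group H] {D : Subgroup H} {Sp : H → H → H → Prop}

theorem cr_conj (hG : GF D Sp) {a b g : H} (hg : g ∈ D) (h : Cr Sp a b) :
    Cr Sp (g * a * g⁻¹) (g * b * g⁻¹) := by
  unfold Cr at h ⊢
  have h1 := hG.conj g hg a b b⁻¹ h
  have h2 : (g * b * g⁻¹)⁻¹ = g * b⁻¹ * g⁻¹ := by group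
  rw [h2]
  exact h1

theorem cr_conj_self (hG : GF D Sp) {a b : H} (ha : a ∈ D) (h : Cr Sp a b) :
    Cr Sp a (a * b * a⁻¹) := by
  have h1 := cr_conj hG ha h
  have h2 : a * a * a⁻¹ = a := by group
  rwa [h2] at h1

/-- A crossing element does not commute with its translate. -/
theorem nc_conj (hG : GF D Sp) {a b : H} (ha : a ∈ D) (hb : b ∈ D) (h : Cr Sp a b) :
    Nc (a * b * a⁻¹) b := by
  intro hc
  have h1 : Nc a b := hG.comm a ha b hb h
  have hb1 : b ≠ 1 := by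
    rintro rfl
    exact h1 (by simp)
  exact h1 (hG.norm a ha b hb hb1 hc)

end

theorem goalH4 (h1 : GoalH1) : GoalH4 := by
  intro H _ D Sp l r sd Y hG hF x hx y hy z hz hxy hyz hxz hd
  obtain ⟨_, h2, h3⟩ := h1 H D Sp l r sd Y hG hF
  obtain ⟨a, ha, b, hb, c, hc, hab, hac, hk⟩ := h3 x hx y hy z hz hxy hxz hd
  have hGF : GF D Sp := hG.toGF
  have haD : a ∈ D := hF.sub x hx a ha
  have hbD : b ∈ D := hF.sub y hy b hb
  have hcD : c ∈ D := hF.sub z hz c hc
  set B : H := a * b * a⁻¹ with hB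
  set B1 : H := a * B * a⁻¹ with hB1
  have hBD : B ∈ D := D.mul_mem (D.mul_mem haD hbD) (D.inv_mem haD)
  have hB1D : B1 ∈ D := D.mul_mem (D.mul_mem haD hBD) (D.inv_mem haD)
  have hBy : B ∈ y := hF.conj y hy b hb a haD
  have hB1y : B1 ∈ y := hF.conj y hy B hBy a haD
  have hB0c : Cr Sp b c := by
    have := hk 0 (by norm_num) (by norm_num)
    simpa using this
  have hBc : Cr Sp B c := by
    have := hk 1 (by norm_num) (by norm_num)
    simpa using this
  have hB1c : Cr Sp B1 c := by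
    have h4 := hk 2 (by norm_num) (by norm_num)
    have h5 : a ^ (2 : ℤ) * b * (a ^ (2 : ℤ))⁻¹ = B1 := by
      rw [hB1, hB, zpow_two]
      group
    rwa [h5] at h4
  have haB : Cr Sp a B := cr_conj_self hGF haD hab
  have haB1 : Cr Sp a B1 := cr_conj_self hGF haD haB
  have hba : Cr Sp b a := hGF.symm a haD b hbD hab
  have hBa : Cr Sp B a := hGF.symm a haD B hBD haB
  have hB1a : Cr Sp B1 a := hGF.symm a haD B1 hB1D haB1
  have hn1 : Nc B B1 := fun h => nc_conj hGF haD hBD haB h.symm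
  have hn0 : Nc B b := nc_conj hGF haD hbD hab
  have hs1 : ∀ k : ℤ, ¬ Cr Sp B1 (B ^ k * B1 * (B ^ k)⁻¹) := fun k =>
    hF.simple y hy B1 hB1y _ (hF.conj y hy B1 hB1y _ (D.zpow_mem hBD k))
  have hs0 : ∀ k : ℤ, ¬ Cr Sp b (B ^ k * b * (B ^ k)⁻¹) := fun k =>
    hF.simple y hy b hb _ (hF.conj y hy b hb _ (D.zpow_mem hBD k))
  obtain ⟨p1, p2⟩ := hG.near B hBD B1 hB1D a haD c hcD hBa hBc hB1a hB1c
    (hF.simple y hy B hBy B1 hB1y) hn1 hs1
  obtain ⟨q1, q2⟩ := hG.near B hBD b hbD a haD c hcD hBa hBc hba hB0c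
    (hF.simple y hy B hBy b hb) hn0 hs0
  have hb' : a⁻¹ * B * a = b := by
    rw [hB]
    group
  have hopp := hG.opp a haD B hBD haB (hF.simple y hy B hBy _ hB1y)
    (by rw [hb']; exact hF.simple y hy B hBy b hb)
  rw [hb'] at hopp
  have hlr : |l B a - l B c| < 1 ∧ |r B a - r B c| < 1 := by
    by_cases hs : sd B B1
    · exact ⟨p1 hs, q2 (hopp.mp hs)⟩
    · exact ⟨q1 (by
        by_contra h6
        exact hs (hopp.mpr h6)), p2 hs⟩
  have h7 := (h2 y hy x hx z hz (Ne.symm hxy) hyz B hBy a ha c hc hBa hBc).2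
  have h8 : |tw l r B a - tw l r B c| < 2 := by
    unfold tw
    obtain ⟨h9, h10⟩ := hlr
    rw [abs_lt] at h9 h10 ⊢
    constructor <;> linarith [h9.1, h9.2, h10.1, h10.2]
  have h9 : (dY Sp y x z : ℝ) < 10 := by linarith
  have h10 : dY Sp y x z < 10 := by exact_mod_cast h9
  omega

end Pool.Agent.Helper86.LN
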