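import Pool.Agent.Helper64.LN.GoalsB

set_option autoImplicit false

/-! Packet LN-PRES: the projection distance is preserved by conjugation. -/

open Topology Filter Set Metric UpperHalfPlane
open scoped MatrixGroups

namespace Pool.Agent.Helper86.LN

open Pool.Agent.Helper64.LN

theorem card_conj (F a b c : ℍ ≃ₜ ℍ) :
    Nat.card {k : ℤ // Cr Sp ((F * a * F⁻¹) ^ k * (F * b * F⁻¹) * ((F * a * F⁻¹) ^ k)⁻¹)
      (F * c * F⁻¹)} = Nat.card {k : ℤ // Cr Sp (a ^ k * b * (a ^ k)⁻¹) c} := by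
  have h1 : ∀ k : ℤ, Cr Sp ((F * a * F⁻¹) ^ k * (F * b * F⁻¹) * ((F * a * F⁻¹) ^ k)⁻¹)
      (F * c * F⁻¹) ↔ Cr Sp (a ^ k * b * (a ^ k)⁻¹) c := by
    intro k
    have h2 : (F * a * F⁻¹) ^ k * (F * b * F⁻¹) * ((F * a * F⁻¹) ^ k)⁻¹ =
        F * (a ^ k * b * (a ^ k)⁻¹) * F⁻¹ := by
      rw [conj_zpow]
      group
    rw [h2]
    exact Cr_conj_iff F _ _
  exact Nat.card_congr (Equiv.subtypeEquivRight h1)

theorem goalPRES : GoalPRES := by
  intro F x y z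
  unfold dY
  congr 2
  ext n
  simp only [Set.mem_ofPred_eq]
  constructor
  · rintro ⟨a, ha, b, hb, c, hc, h1, h2, h3⟩
    have ea : a = F * (F⁻¹ * a * F) * F⁻¹ := by group
    have eb : b = F * (F⁻¹ * b * F) * F⁻¹ := by group
    have ec : c = F * (F⁻¹ * c * F) * F⁻¹ := by group
    rw [ea, eb] at h1
    rw [ea, ec] at h2
    rw [ea, eb, ec, card_conj] at h3
    exact ⟨F⁻¹ * a * F, ha, F⁻¹ * b * F, hb, F⁻¹ * c * F, hc, (Cr_conj_iff F _ _).mp h1,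
      (Cr_conj_iff F _ _).mp h2, h3⟩
  · rintro ⟨a, ha, b, hb, c, hc, h1, h2, h3⟩
    have e : ∀ (t : Set (ℍ ≃ₜ ℍ)) (a : ℍ ≃ₜ ℍ), a ∈ t → F * a * F⁻¹ ∈ cj F t := by
      intro t a ha
      change F⁻¹ * (F * a * F⁻¹) * F ∈ t
      have : F⁻¹ * (F * a * F⁻¹) * F = a := by group
      rw [this]
      exact ha
    exact ⟨F * a * F⁻¹, e x a ha, F * b * F⁻¹, e y b hb, F * c * F⁻¹, e z c hc,
      (Cr_conj_iff F _ _).mpr h1, (Cr_conj_iff F _ _).mpr h2, by rw [card_conj]; exact h3⟩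

end Pool.Agent.Helper86.LN
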